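import Mathlib
import Pool.Agent.X173.BTB
set_option autoImplicit false

namespace Pool.Agent.Results.MP_ea58a7_an.TransitiveC

open Set Pool.Agent.X173.BT

/-- The map `T_{α,β} : [0,1) → [0,1)`, `x ↦ βx + α mod 1`. -/
noncomputable def T (α β : ℝ) (x : Set.Ico (0:ℝ) 1) : Set.Ico (0:ℝ) 1 :=
  ⟨Int.fract (β * x + α), Int.fract_nonneg _, Int.fract_lt_one _⟩

/-- Topological transitivity of a (not necessarily continuous) self-map. -/
def IsTransitive {X : Type} [TopologicalSpace X] (f : X → X) : Prop :=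
  ∀ U V : Set X, IsOpen U → IsOpen V → U.Nonempty → V.Nonempty →
    ∃ n : ℕ, ((f^[n] '' U) ∩ V).Nonempty

lemma T_left {α β : ℝ} (x : Set.Ico (0:ℝ) 1) (h0 : 0 ≤ β * x + α) (h1 : β * x + α < 1) :
    ((T α β x : Set.Ico (0:ℝ) 1) : ℝ) = β * x + α := Int.fract_eq_self.mpr ⟨h0, h1⟩

lemma T_right {α β : ℝ} (x : Set.Ico (0:ℝ) 1) (h0 : 1 ≤ β * x + α) (h1 : β * x + α < 2) :
    ((T α β x : Set.Ico (0:ℝ) 1) : ℝ) = β * x + α - 1 := by
  unfold T
  simp only
  have : Int.fract (β * (x:ℝ) + α) = Int.fract (β * (x:ℝ) + α - 1) := by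
    rw [Int.fract_sub_one]
  rw [this]
  exact Int.fract_eq_self.mpr ⟨by linarith, by linarith⟩

/-- an open nonempty set of `[0,1)` contains the trace of a nonempty open subset of `(0,1)` -/
lemma open_trace (U : Set (Set.Ico (0:ℝ) 1)) (hU : IsOpen U) (hne : U.Nonempty) :
    ∃ U' : Set ℝ, IsOpen U' ∧ U'.Nonempty ∧ U' ⊆ Ioo 0 1 ∧
      ∀ y (hy : y ∈ U') (h : y ∈ Set.Ico (0:ℝ) 1), (⟨y, h⟩ : Set.Ico (0:ℝ) 1) ∈ U := by
  obtain ⟨U₀, hU₀, rfl⟩ := isOpen_induced_iff.mp hU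
  obtain ⟨⟨x, hx⟩, hxU⟩ := hne
  simp only [mem_preimage] at hxU
  refine ⟨U₀ ∩ Ioo 0 1, hU₀.inter isOpen_Ioo, ?_, inter_subset_right, ?_⟩
  · obtain ⟨ε, hε, hball⟩ := Metric.isOpen_iff.mp hU₀ x hxU
    rw [Real.ball_eq_Ioo] at hball
    refine ⟨x + min (ε/2) ((1-x)/2), hball ⟨?_, ?_⟩, ?_, ?_⟩
    · have : 0 < min (ε/2) ((1-x)/2) := lt_min (by linarith) (by linarith [hx.2])
      linarith
    · have := min_le_left (ε/2) ((1-x)/2)
      linarith
    · have : 0 < min (ε/2) ((1-x)/2) := lt_min (by linarith) (by linarith [hx.2])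
      linarith [hx.1]
    · have := min_le_right (ε/2) ((1-x)/2)
      linarith [hx.2]
  · intro y hy h
    exact hy.1

/-- **Q1 (affirmative answer).** For every `(α,β)` in the region `𝒞` the map `T_{α,β}` is
topologically transitive. -/
theorem result (α β : ℝ) (h1 : 1 < β) (h2 : β ≤ 2) (hα : 0 ≤ α) (hαβ : α + β ≤ 2)
    (hβ : β ≤ Real.sqrt 2) (hC : α ≤ 1 - 1/β ∨ 1 + 1/β - β ≤ α) : IsTransitive (T α β) := by
  intro U V hU hV hUne hVne
  have hβ0 : 0 < β := by linarith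
  have hβ2 : β^2 ≤ 2 := by
    have := pow_le_pow_left₀ hβ0.le hβ 2
    rwa [Real.sq_sqrt (by norm_num)] at this
  obtain ⟨U', hU'o, hU'ne, hU's, hU'U⟩ := open_trace U hU hUne
  obtain ⟨V', hV'o, hV'ne, hV's, hV'V⟩ := open_trace V hV hVne
  let W : Set ℝ := {y | ∃ x ∈ U, ∃ n : ℕ, (((T α β)^[n] x : Set.Ico (0:ℝ) 1) : ℝ) = y}
  let O : Set ℝ := interior (W ∩ Ioo 0 1)
  have hO : IsOpen O := isOpen_interior
  have hOW : O ⊆ W ∩ Ioo 0 1 := interior_subset
  have hsub : O ⊆ Ioo 0 1 := hOW.trans inter_subset_right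
  have hne : O.Nonempty := by
    refine hU'ne.mono (interior_maximal ?_ hU'o)
    intro y hy
    have hy1 := hU's hy
    exact ⟨⟨⟨y, hy1.1.le, hy1.2⟩, hU'U y hy _, 0, rfl⟩, hy1⟩
  let c : ℝ := (1-α)/β
  have hc : β*c+α = 1 := by
    simp only [c]
    field_simp
    ring
  -- key image steps
  have stepL : ∀ z ∈ O, z < c → β*z+α ∈ W ∩ Ioo 0 1 := by
    intro z hz hzc
    obtain ⟨⟨x, hxU, n, hn⟩, hz0, hz1⟩ := hOW hz
    have h4 : β*z < β*c := mul_lt_mul_of_pos_left hzc hβ0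
    have h5 : 0 < β*z := by positivity
    refine ⟨⟨x, hxU, n+1, ?_⟩, by linarith, by linarith⟩
    rw [Function.iterate_succ_apply', T_left _ (by rw [hn]; linarith) (by rw [hn]; linarith), hn]
  have stepR : ∀ z ∈ O, c < z → β*z+α-1 ∈ W ∩ Ioo 0 1 := by
    intro z hz hzc
    obtain ⟨⟨x, hxU, n, hn⟩, hz0, hz1⟩ := hOW hz
    have h4 : β*c < β*z := mul_lt_mul_of_pos_left hzc hβ0
    have h5 : β*z < β*1 := mul_lt_mul_of_pos_left hz1 hβ0
    refine ⟨⟨x, hxU, n+1, ?_⟩, by linarith, by linarith⟩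
    rw [Function.iterate_succ_apply', T_right _ (by rw [hn]; linarith) (by rw [hn]; linarith), hn]
  have hL : ∀ y ∈ O, y < c → β*y+α ∈ O := by
    intro y hy hyc
    obtain ⟨δ, hδ, hball⟩ := Metric.isOpen_iff.mp (hO.inter isOpen_Iio) y ⟨hy, hyc⟩
    rw [Real.ball_eq_Ioo] at hball
    have hsub2 : Ioo (β*y+α-β*δ) (β*y+α+β*δ) ⊆ W ∩ Ioo 0 1 := by
      rintro w ⟨hw1, hw2⟩
      have h4 : (w - α)/β ∈ Ioo (y-δ) (y+δ) := by
        constructor
        · rw [lt_div_iff₀ hβ0]; linarith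
        · rw [div_lt_iff₀ hβ0]; linarith
      have h5 := stepL _ (hball h4).1 (hball h4).2
      rw [mul_div_cancel₀ _ hβ0.ne', sub_add_cancel] at h5
      exact h5
    have : 0 < β*δ := by positivity
    exact interior_maximal hsub2 isOpen_Ioo ⟨by linarith, by linarith⟩
  have hR : ∀ y ∈ O, c < y → β*y+α-1 ∈ O := by
    intro y hy hyc
    obtain ⟨δ, hδ, hball⟩ := Metric.isOpen_iff.mp (hO.inter isOpen_Ioi) y ⟨hy, hyc⟩
    rw [Real.ball_eq_Ioo] at hball
    have hsub2 : Ioo (β*y+α-1-β*δ) (β*y+α-1+β*δ) ⊆ W ∩ Ioo 0 1 := by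
      rintro w ⟨hw1, hw2⟩
      have h4 : (w - α + 1)/β ∈ Ioo (y-δ) (y+δ) := by
        constructor
        · rw [lt_div_iff₀ hβ0]; linarith
        · rw [div_lt_iff₀ hβ0]; linarith
      have h5 := stepR _ (hball h4).1 (hball h4).2
      rw [mul_div_cancel₀ _ hβ0.ne'] at h5
      have h6 : w - α + 1 + α - 1 = w := by ring
      rw [h6] at h5
      exact h5
    have : 0 < β*δ := by positivity
    exact interior_maximal hsub2 isOpen_Ioo ⟨by linarith, by linarith⟩
  have hP : c ∈ O → ∃ ε > 0, Ioo 0 ε ⊆ O ∧ Ioo (1-ε) 1 ⊆ O := by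
    intro hcO
    obtain ⟨δ, hδ, hball⟩ := Metric.isOpen_iff.mp hO c hcO
    rw [Real.ball_eq_Ioo] at hball
    refine ⟨β*δ, by positivity, ?_, ?_⟩
    · refine interior_maximal ?_ isOpen_Ioo
      rintro w ⟨hw1, hw2⟩
      have h4 : (w - α + 1)/β ∈ Ioo c (c+δ) := by
        constructor
        · rw [lt_div_iff₀ hβ0]; linarith
        · rw [div_lt_iff₀ hβ0]; linarith
      have h5 := stepR _ (hball ⟨by linarith [h4.1], h4.2⟩) h4.1
      rw [mul_div_cancel₀ _ hβ0.ne'] at h5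
      have h6 : w - α + 1 + α - 1 = w := by ring
      rw [h6] at h5
      exact h5
    · refine interior_maximal ?_ isOpen_Ioo
      rintro w ⟨hw1, hw2⟩
      have h4 : (w - α)/β ∈ Ioo (c-δ) c := by
        constructor
        · rw [lt_div_iff₀ hβ0]; linarith
        · rw [div_lt_iff₀ hβ0]; linarith
      have h5 := stepL _ (hball ⟨h4.1, by linarith [h4.2]⟩) h4.2
      rw [mul_div_cancel₀ _ hβ0.ne', sub_add_cancel] at h5
      exact h5
  -- apply the core theorem
  have hfin : ∃ F : Set ℝ, F.Finite ∧ Ioo 0 1 ⊆ O ∪ F := by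
    rcases hC with hC | hC
    · have hα1 : β*α ≤ β-1 := by
        have := mul_le_mul_of_nonneg_left hC hβ0.le
        rw [mul_sub, mul_one, mul_one_div_cancel hβ0.ne'] at this
        exact this
      exact core h1 hβ2 hα hα1 hc hO hne hsub hL hR hP
    · have hα1 : β*(2-β-α) ≤ β-1 := by
        have := mul_le_mul_of_nonneg_left hC hβ0.le
        rw [mul_sub, mul_add, mul_one, mul_one_div_cancel hβ0.ne'] at this
        nlinarith
      have hO' : IsOpen ((fun y : ℝ => 1 - y) ⁻¹' O) := hO.preimage (by fun_prop)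
      obtain ⟨F, hF, hFO⟩ := core (α := 2-β-α) (c := 1-c) (O := (fun y : ℝ => 1 - y) ⁻¹' O) h1 hβ2
        (by linarith) hα1 (by linarith [hc, mul_sub β 1 c]) hO' (by
          obtain ⟨y, hy⟩ := hne
          refine ⟨1-y, ?_⟩
          simp only [mem_preimage, sub_sub_cancel]
          exact hy) (by
          intro y hy
          have := hsub hy
          exact ⟨by linarith [this.2], by linarith [this.1]⟩) (by
          intro y hy hyc
          have := hR (1-y) hy (by linarith)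
          simp only [mem_preimage]
          have h6 : 1 - (β*y+(2-β-α)) = β*(1-y)+α-1 := by ring
          rw [h6]; exact this) (by
          intro y hy hyc
          have := hL (1-y) hy (by linarith)
          simp only [mem_preimage]
          have h6 : 1 - (β*y+(2-β-α)-1) = β*(1-y)+α := by ring
          rw [h6]; exact this) (by
          intro hcO
          simp only [mem_preimage, sub_sub_cancel] at hcO
          obtain ⟨ε, hε, h5, h6⟩ := hP hcO
          refine ⟨ε, hε, ?_, ?_⟩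
          · intro y hy
            exact h6 ⟨by linarith [hy.2], by linarith [hy.1]⟩
          · intro y hy
            exact h5 ⟨by linarith [hy.2], by linarith [hy.1]⟩)
      refine ⟨(fun y : ℝ => 1 - y) '' F, hF.image _, ?_⟩
      intro y hy
      rcases hFO (⟨by linarith [hy.2], by linarith [hy.1]⟩ : (1-y) ∈ Ioo (0:ℝ) 1) with h5 | h5
      · left
        simp only [mem_preimage, sub_sub_cancel] at h5
        exact h5
      · right
        exact ⟨1-y, h5, by ring⟩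
  obtain ⟨F, hF, hFO⟩ := hfin
  have hinf : V'.Infinite := by
    obtain ⟨v, hv⟩ := hV'ne
    obtain ⟨ε, hε, hball⟩ := Metric.isOpen_iff.mp hV'o v hv
    rw [Real.ball_eq_Ioo] at hball
    exact (Ioo_infinite (by linarith : v - ε < v + ε)).mono hball
  obtain ⟨v, hvV, hvF⟩ := hinf.exists_notMem_finite hF
  have hvO : v ∈ O := by
    rcases hFO (hV's hvV) with h5 | h5
    · exact h5
    · exact absurd h5 hvF
  obtain ⟨⟨x, hxU, n, hn⟩, hv1⟩ := hOW hvO
  refine ⟨n, (T α β)^[n] x, ⟨x, hxU, rfl⟩, ?_⟩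
  have h5 := hV'V v hvV ⟨hv1.1.le, hv1.2⟩
  have h6 : (T α β)^[n] x = ⟨v, hv1.1.le, hv1.2⟩ := Subtype.ext hn
  rw [h6]
  exact h5

end Pool.Agent.Results.MP_ea58a7_an.TransitiveC
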